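import Mathlib
import Pool.Agent.P.MP_42d775_co.Base

set_option autoImplicit false

open SimpleGraph

namespace Pool.Agent.Results.MP_42d775_co.PrimeCounterexample

/-- `G` has an odd hole: an induced cycle with an odd number `n ≥ 4` of vertices. -/
def HasOddHole {V : Type} (G : SimpleGraph V) : Prop :=
  ∃ n : ℕ, 4 ≤ n ∧ Odd n ∧ (cycleGraph n).IsIndContained G

/-- `G` is Berge: no odd hole in `G` and none in its complement (no odd antihole in `G`). -/
def IsBerge {V : Type} (G : SimpleGraph V) : Prop :=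
  ¬ HasOddHole G ∧ ¬ HasOddHole Gᶜ

/-- `{x, y}` is an even pair of `H`: distinct, non-adjacent, and every induced (chordless) path
between them has even length. -/
def IsEvenPair {V : Type} (H : SimpleGraph V) (x y : V) : Prop :=
  x ≠ y ∧ ¬ H.Adj x y ∧ ∀ p : H.Walk x y, p.IsPath → p.IsChordless → Even p.length

/-- `{K₁, K₂}` is an odd pair of cliques of `H`: both are cliques and every induced path from a
vertex of `K₁` to a vertex of `K₂` all of whose other vertices lie outside `K₁ ∪ K₂` has odd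
length. -/
def IsOddPairOfCliques {V : Type} (H : SimpleGraph V) (K₁ K₂ : Set V) : Prop :=
  H.IsClique K₁ ∧ H.IsClique K₂ ∧
    ∀ a ∈ K₁, ∀ b ∈ K₂, ∀ p : H.Walk a b, p.IsPath → p.IsChordless →
      (∀ v ∈ p.support, v ≠ a → v ≠ b → v ∉ K₁ ∪ K₂) → Odd p.length

/-- `S` is a homogeneous set of `G`: it has at least two vertices, it is not the whole vertex
set, and every vertex outside `S` is adjacent to all vertices of `S` or to none. -/
def IsHomogeneousSet {V : Type} (G : SimpleGraph V) (S : Set V) : Prop :=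
  S.Nontrivial ∧ S ≠ Set.univ ∧ ∀ v ∉ S, (∀ s ∈ S, G.Adj v s) ∨ (∀ s ∈ S, ¬ G.Adj v s)

theorem result :
    ∃ (V : Type) (_ : Fintype V) (G : SimpleGraph V), 2 ≤ Fintype.card V ∧ IsBerge G ∧
      (¬ ∃ S : Set V, IsHomogeneousSet G S) ∧
      ∀ H : SimpleGraph V, H = G ∨ H = Gᶜ →
        (¬ ∃ x y : V, IsEvenPair H x y) ∧
        ¬ ∃ K₁ K₂ : Set V, Maximal H.IsClique K₁ ∧ Maximal H.IsClique K₂ ∧
          IsOddPairOfCliques H K₁ K₂ := by
  open Pool.Agent.P.MP_42d775_co in
  have key : ∀ F : SimpleGraph (Fin 8), P4Mate F mate → P4Prop F → CommonNbr F → Ind3' F 0 →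
      (∃ c, F.Adj c 0) →
      (¬ ∃ x y, IsEvenPair (twist F F mate mate_mate 0) x y) ∧
        ¬ ∃ K₁ K₂, Maximal (twist F F mate mate_mate 0).IsClique K₁ ∧
          Maximal (twist F F mate mate_mate 0).IsClique K₂ ∧
          IsOddPairOfCliques (twist F F mate mate_mate 0) K₁ K₂ := by
    intro F h0 h1 h2 h3 h4
    constructor
    · rintro ⟨x, y, hxy, hn, h⟩
      obtain ⟨p, hp1, hp2, hp3⟩ := exists_walk3 (p4_twist (c := 1) h0 h1 (by decide)) hxy hn
      have := h p hp1 hp2
      rw [hp3] at this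
      exact absurd this (by decide)
    · rintro ⟨K₁, K₂, hK₁, hK₂, -, -, h⟩
      obtain ⟨a, ha, b, hb, p, hp1, hp2, hp3, hp4⟩ := even_external_twist h2 h3 h4 hK₁ hK₂
      exact (Nat.not_odd_iff_even.2 hp4) (h a ha b hb p hp1 hp2 hp3)
  open Pool.Agent.P.MP_42d775_co in
  refine ⟨Fin 8 × Fin 8, inferInstance, twist base base mate mate_mate 0, by simp,
    ⟨?_, ?_⟩, ?_, ?_⟩
  · rintro ⟨n, h1, h2, h3⟩
    exact noOddHole_twist mate_ne base_all base_noOddHole n h1 h2 h3
  · rintro ⟨n, h1, h2, h3⟩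
    rw [twist_compl] at h3
    exact noOddHole_twist mate_ne basec_all basec_noOddHole n h1 h2 h3
  · rintro ⟨S, ⟨a, ha, b, hb, hab⟩, hS, h⟩
    apply hS
    rw [Set.eq_univ_iff_forall]
    refine primeC_twist (hm := mate_mate) (o := 0) (c := 1) (d := 2) mate_ne base_primeC
      base_primeC base_nb (by decide) (by decide) (by decide) S ?_ a ha b hb hab
    intro z s hs t ht h1 h2
    by_contra hz
    rcases h z hz with h' | h'
    · exact h2 (h' t ht)
    · exact h' s hs h1
  · rintro H (rfl | rfl)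
    · exact key base base_p4m base_p4 base_cn base_ind3 base_o
    · rw [twist_compl]
      exact key baseᶜ basec_p4m basec_p4 basec_cn basec_ind3 basec_o

end Pool.Agent.Results.MP_42d775_co.PrimeCounterexample
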